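import Pool.Agent.H555R4.DY.Stmts

set_option autoImplicit false

open Finset Filter Topology

namespace Pool.Agent.H555R4.DY.Meas403

open Pool.Agent.H555R4.DY

theorem num_succ (ε : ℕ → Bool) (p : ℕ) :
    num ε (p + 1) = num ε p + (if ε p then 2 ^ p else 0) := by
  unfold num
  rw [Finset.sum_range_succ]

theorem num_lt (ε : ℕ → Bool) (p : ℕ) : num ε p < 2 ^ p := by
  induction p with
  | zero => simp [num]
  | succ p ih =>
    rw [num_succ, pow_succ]
    split_ifs <;> omega

theorem num_inj (ε ε' : ℕ → Bool) (p : ℕ) (h : num ε p = num ε' p) :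
    ∀ i < p, ε i = ε' i := by
  induction p with
  | zero => intro i hi; omega
  | succ p ih =>
    rw [num_succ, num_succ] at h
    have h1 := num_lt ε p
    have h2 := num_lt ε' p
    have h3 : ε p = ε' p ∧ num ε p = num ε' p := by
      by_cases a : ε p = true <;> by_cases b : ε' p = true
      · simp only [a, b, if_true] at h
        exact ⟨by rw [a, b], by omega⟩
      · rw [if_pos a, if_neg b] at h
        omega
      · rw [if_neg a, if_pos b] at h
        omega
      · rw [if_neg a, if_neg b] at h
        rw [Bool.not_eq_true] at a b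
        exact ⟨by rw [a, b], by omega⟩
    intro i hi
    rcases Nat.lt_succ_iff_lt_or_eq.1 hi with hi | rfl
    · exact ih h3.2 i hi
    · exact h3.1

theorem taskMeas : TaskMeas := by
  intro p n
  by_cases hne : ∃ ε₀ : ℕ → Bool, num ε₀ p = n
  · obtain ⟨ε₀, h0⟩ := hne
    have hsub : {ε : ℕ → Bool | num ε p = n} ⊆
        Set.pi (Finset.range p : Set ℕ) (fun i => {ε₀ i}) := by
      intro ε hε i hi
      have : num ε p = num ε₀ p := by rw [h0]; exact hε
      exact num_inj ε ε₀ p this i (Finset.mem_range.1 (Finset.mem_coe.1 hi))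
    refine (MeasureTheory.measure_mono hsub).trans ?_
    have h1 : ∀ b : Bool, (PMF.uniformOfFintype Bool).toMeasure {b} = 2⁻¹ := by
      intro b
      rw [PMF.toMeasure_apply_singleton _ _ (MeasurableSet.singleton b),
        PMF.uniformOfFintype_apply]
      simp
    unfold coin
    rw [MeasureTheory.Measure.infinitePi_pi (fun _ : ℕ => (PMF.uniformOfFintype Bool).toMeasure)
      (fun i _ => MeasurableSet.singleton _)]
    simp_rw [h1]
    rw [Finset.prod_const, Finset.card_range, one_div, ← inv_pow,
      ENNReal.ofReal_pow (by positivity), ENNReal.ofReal_inv_of_pos (by norm_num)]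
    simp
  · have : {ε : ℕ → Bool | num ε p = n} = ∅ := by
      ext ε
      simp only [Set.mem_ofPred_eq, Set.mem_empty_iff_false, iff_false]
      intro h
      exact hne ⟨ε, h⟩
    rw [this]
    simp

end Pool.Agent.H555R4.DY.Meas403
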