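import Pool.Agent.H555R4.DY.Stmts

set_option autoImplicit false

open Finset Filter Topology

namespace Pool.Agent.H555R4.DY.Var403

open Pool.Agent.H555R4.DY
open Pool.Agent.H555R4.LW (rp sp)

theorem per (f : ℕ → ℝ) (q : ℕ) (hq : 1 ≤ q) (Q : ℕ) (hQ : q ≤ Q) :
    ∑ n ∈ (range (2 ^ Q)).filter (fun n => Odd n), f (n % 2 ^ q) =
      2 ^ (Q - q) * ∑ n ∈ (range (2 ^ q)).filter (fun n => Odd n), f n := by
  induction Q, hQ using Nat.le_induction with
  | base =>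
    rw [Nat.sub_self, pow_zero, one_mul]
    apply Finset.sum_congr rfl
    intro n hn
    rw [Finset.mem_filter, Finset.mem_range] at hn
    rw [Nat.mod_eq_of_lt hn.1]
  | succ Q hQ ih =>
    have h1 : 2 ^ (Q + 1) = 2 ^ Q + 2 ^ Q := by ring
    obtain ⟨c, hc⟩ : 2 ^ q ∣ 2 ^ Q := pow_dvd_pow 2 hQ
    obtain ⟨k, hk⟩ : 2 ∣ 2 ^ Q := dvd_pow_self 2 (by omega)
    rw [Finset.sum_filter, h1, Finset.sum_range_add]
    have h2 : ∀ x, (if Odd (2 ^ Q + x) then f ((2 ^ Q + x) % 2 ^ q) else 0) =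
        if Odd x then f (x % 2 ^ q) else 0 := by
      intro x
      have e1 : (2 ^ Q + x) % 2 ^ q = x % 2 ^ q := by rw [hc, Nat.mul_add_mod]
      have e2 : Odd (2 ^ Q + x) ↔ Odd x := by
        rw [Nat.odd_iff, Nat.odd_iff]; omega
      rw [e1]
      simp only [e2]
    simp_rw [h2]
    rw [← Finset.sum_filter, ih]
    have h3 : Q + 1 - q = (Q - q) + 1 := by omega
    rw [h3, pow_succ]
    ring

noncomputable def g (p n : ℕ) : ℝ := if (rp p (n % 2 ^ p)).Prime then 1 else 0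

def PB (i : ℕ) : Finset ℕ := (Ioc (2 ^ i) (2 ^ (i + 1))).filter (fun p => p.Prime)

theorem Zb_eq (i n : ℕ) : (Zb i n : ℝ) = ∑ p ∈ PB i, g p n := by
  unfold Zb PB g
  rw [← Finset.filter_filter, Finset.card_filter]
  push_cast
  rfl

theorem sum_g (q Q : ℕ) (hq : 1 ≤ q) (hQ : q ≤ Q) :
    ∑ n ∈ (range (2 ^ Q)).filter (fun n => Odd n), g q n = 2 ^ (Q - q) * (cB q : ℝ) := by
  have h := per (fun m => if (rp q m).Prime then (1 : ℝ) else 0) q hq Q hQ
  unfold g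
  rw [h]
  congr 1
  unfold cB
  rw [← Finset.filter_filter, Finset.card_filter]
  push_cast
  rfl

theorem sum_gg (p q Q : ℕ) (hp : 1 ≤ p) (hpq : p ≤ q) (hQ : q ≤ Q) :
    ∑ n ∈ (range (2 ^ Q)).filter (fun n => Odd n), g q n * g p n =
      2 ^ (Q - q) * (cBB p q : ℝ) := by
  have h := per (fun m => if (rp q m).Prime ∧ (rp p (m % 2 ^ p)).Prime then (1 : ℝ) else 0) q
    (hp.trans hpq) Q hQ
  have h1 : ∀ n, g q n * g p n = if (rp q (n % 2 ^ q)).Prime ∧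
      (rp p (n % 2 ^ q % 2 ^ p)).Prime then (1 : ℝ) else 0 := by
    intro n
    unfold g
    rw [Nat.mod_mod_of_dvd n (pow_dvd_pow 2 hpq)]
    by_cases a : (rp q (n % 2 ^ q)).Prime <;> by_cases b : (rp p (n % 2 ^ p)).Prime <;>
      simp [a, b]
  simp_rw [h1]
  rw [h]
  congr 1
  unfold cBB
  rw [← Finset.filter_filter, Finset.card_filter]
  push_cast
  rfl

theorem PB_mem {i p : ℕ} (h : p ∈ PB i) : 2 ^ i < p ∧ p ≤ 2 ^ (i + 1) := by
  unfold PB at h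
  rw [Finset.mem_filter, Finset.mem_Ioc] at h
  exact h.1

theorem PB_card (i : ℕ) : (PB i).card ≤ 2 ^ i := by
  unfold PB
  refine (Finset.card_filter_le _ _).trans ?_
  rw [Nat.card_Ioc, pow_succ]
  omega

def Om (I : ℕ) : Finset ℕ := (range (2 ^ (2 ^ I))).filter (fun n => Odd n)

theorem Om_card (I : ℕ) : ((Om I).card : ℝ) = 2 ^ (2 ^ I - 1) := by
  have h := per (fun _ => (1 : ℝ)) 1 le_rfl (2 ^ I) Nat.one_le_two_pow
  have h1 : (range (2 ^ 1)).filter (fun n => Odd n) = {1} := by decide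
  rw [h1] at h
  unfold Om
  simpa using h

noncomputable def ex (I : ℕ) (f : ℕ → ℝ) : ℝ := (∑ n ∈ Om I, f n) / 2 ^ (2 ^ I - 1)

noncomputable def cv (I i j : ℕ) : ℝ :=
  ex I (fun n => (Zb i n : ℝ) * Zb j n) - ex I (fun n => (Zb i n : ℝ)) * ex I (fun n => (Zb j n : ℝ))

theorem cv_comm (I i j : ℕ) : cv I i j = cv I j i := by
  unfold cv
  rw [mul_comm (ex I (fun n => (Zb i n : ℝ)))]
  congr 2
  funext n
  ring

theorem var_eq (I : ℕ) : ∑ n ∈ Om I, ((Sb I n : ℝ) - aS I) ^ 2 =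
    2 ^ (2 ^ I - 1) * ∑ i ∈ range I, ∑ j ∈ range I, cv I i j := by
  have hW : (0 : ℝ) < 2 ^ (2 ^ I - 1) := by positivity
  set W : ℝ := 2 ^ (2 ^ I - 1) with hWdef
  have ha : aS I = (∑ n ∈ Om I, (Sb I n : ℝ)) / W := rfl
  have hS : ∀ n, (Sb I n : ℝ) = ∑ i ∈ range I, (Zb i n : ℝ) := by
    intro n; unfold Sb; push_cast; rfl
  have h1 : ∑ n ∈ Om I, ((Sb I n : ℝ) - aS I) ^ 2 =
      ∑ n ∈ Om I, (Sb I n : ℝ) ^ 2 - W * (aS I) ^ 2 := by
    have e1 : ∀ n, ((Sb I n : ℝ) - aS I) ^ 2 = (Sb I n : ℝ) ^ 2 - 2 * aS I * Sb I n + aS I ^ 2 := by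
      intro n; ring
    simp_rw [e1]
    rw [Finset.sum_add_distrib, Finset.sum_sub_distrib, ← Finset.mul_sum, Finset.sum_const,
      nsmul_eq_mul, Om_card]
    have e2 : ∑ n ∈ Om I, (Sb I n : ℝ) = W * aS I := by
      rw [ha]; field_simp
    rw [e2]
    ring
  have h2 : ∑ n ∈ Om I, (Sb I n : ℝ) ^ 2 =
      W * ∑ i ∈ range I, ∑ j ∈ range I, ex I (fun n => (Zb i n : ℝ) * Zb j n) := by
    unfold ex
    simp_rw [← Finset.sum_div]
    rw [← hWdef, mul_div_cancel₀ _ hW.ne']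
    simp_rw [hS, sq, Finset.sum_mul_sum]
    rw [Finset.sum_comm]
    apply Finset.sum_congr rfl
    intro i _
    rw [Finset.sum_comm]
  have h3 : aS I = ∑ i ∈ range I, ex I (fun n => (Zb i n : ℝ)) := by
    rw [ha]
    unfold ex
    simp_rw [← Finset.sum_div, hS]
    rw [Finset.sum_comm]
  rw [h1, h2, h3, sq, Finset.sum_mul_sum]
  unfold cv
  simp_rw [Finset.sum_sub_distrib]
  ring

theorem ex_sq_le (C : ℝ) (hSM : ∀ i : ℕ,
    ∑ n ∈ (range (2 ^ (2 ^ (i + 1)))).filter (fun n => Odd n), (Zb i n : ℝ) ^ 2 ≤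
    C * 2 ^ (2 ^ (i + 1))) (I i : ℕ) (hi : i < I) :
    ex I (fun n => (Zb i n : ℝ) ^ 2) ≤ 2 * C := by
  have hle : 2 ^ (i + 1) ≤ 2 ^ I := Nat.pow_le_pow_right (by norm_num) hi
  have h := per (fun n => (Zb i n : ℝ) ^ 2) (2 ^ (i + 1)) Nat.one_le_two_pow (2 ^ I) hle
  have h1 : ∀ n, Zb i (n % 2 ^ (2 ^ (i + 1))) = Zb i n := by
    intro n
    unfold Zb
    congr 1
    apply Finset.filter_congr
    intro p hp
    rw [Finset.mem_Ioc] at hp
    rw [Nat.mod_mod_of_dvd n (pow_dvd_pow 2 hp.2)]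
  simp_rw [h1] at h
  unfold ex Om
  rw [h, div_le_iff₀ (by positivity)]
  have h2 := mul_le_mul_of_nonneg_left (hSM i) (by positivity : (0 : ℝ) ≤ 2 ^ (2 ^ I - 2 ^ (i + 1)))
  refine h2.trans (le_of_eq ?_)
  have h3 : (2 : ℝ) ^ (2 ^ I - 2 ^ (i + 1)) * 2 ^ (2 ^ (i + 1)) = 2 ^ (2 ^ I) := by
    rw [← pow_add]; congr 1; omega
  have h4 : (2 : ℝ) * 2 ^ (2 ^ I - 1) = 2 ^ (2 ^ I) := by
    rw [← pow_succ']; congr 1
    have : 1 ≤ 2 ^ I := Nat.one_le_two_pow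
    omega
  calc (2 : ℝ) ^ (2 ^ I - 2 ^ (i + 1)) * (C * 2 ^ (2 ^ (i + 1)))
      = C * (2 ^ (2 ^ I - 2 ^ (i + 1)) * 2 ^ (2 ^ (i + 1))) := by ring
    _ = C * (2 * 2 ^ (2 ^ I - 1)) := by rw [h3, h4]
    _ = 2 * C * 2 ^ (2 ^ I - 1) := by ring

theorem ex_nonneg (I : ℕ) (f : ℕ → ℝ) (h : ∀ n, 0 ≤ f n) : 0 ≤ ex I f :=
  div_nonneg (Finset.sum_nonneg fun n _ => h n) (by positivity)

theorem ex_mono (I : ℕ) (f f' : ℕ → ℝ) (h : ∀ n, f n ≤ f' n) : ex I f ≤ ex I f' :=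
  div_le_div_of_nonneg_right (Finset.sum_le_sum fun n _ => h n) (by positivity)

theorem cv_le (C : ℝ) (hSM : ∀ i : ℕ,
    ∑ n ∈ (range (2 ^ (2 ^ (i + 1)))).filter (fun n => Odd n), (Zb i n : ℝ) ^ 2 ≤
    C * 2 ^ (2 ^ (i + 1))) (I i j : ℕ) (hi : i < I) (hj : j < I) :
    cv I i j ≤ 2 * C := by
  have h1 := ex_sq_le C hSM I i hi
  have h2 := ex_sq_le C hSM I j hj
  have h3 : ex I (fun n => (Zb i n : ℝ) * Zb j n) ≤
      ex I (fun n => ((Zb i n : ℝ) ^ 2 + (Zb j n : ℝ) ^ 2) / 2) := by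
    apply ex_mono
    intro n
    nlinarith [sq_nonneg ((Zb i n : ℝ) - Zb j n)]
  have h4 : ex I (fun n => ((Zb i n : ℝ) ^ 2 + (Zb j n : ℝ) ^ 2) / 2) =
      (ex I (fun n => (Zb i n : ℝ) ^ 2) + ex I (fun n => (Zb j n : ℝ) ^ 2)) / 2 := by
    unfold ex
    rw [← Finset.sum_div, Finset.sum_add_distrib]
    ring
  have h5 : 0 ≤ ex I (fun n => (Zb i n : ℝ)) * ex I (fun n => (Zb j n : ℝ)) :=
    mul_nonneg (ex_nonneg I _ fun n => Nat.cast_nonneg _) (ex_nonneg I _ fun n => Nat.cast_nonneg _)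
  unfold cv
  linarith

theorem ex_Zb (I i : ℕ) (hi : i < I) :
    ex I (fun n => (Zb i n : ℝ)) = ∑ q ∈ PB i, (cB q : ℝ) / 2 ^ (q - 1) := by
  unfold ex
  simp_rw [Zb_eq]
  rw [Finset.sum_comm, Finset.sum_div]
  apply Finset.sum_congr rfl
  intro q hq
  have hq' := PB_mem hq
  have hle : 2 ^ (i + 1) ≤ 2 ^ I := Nat.pow_le_pow_right (by norm_num) hi
  have hq1 : 1 ≤ q := by omega
  unfold Om
  rw [sum_g q (2 ^ I) hq1 (by omega)]
  have h3 : (2 : ℝ) ^ (2 ^ I - q) * 2 ^ (q - 1) = 2 ^ (2 ^ I - 1) := by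
    rw [← pow_add]; congr 1; omega
  rw [div_eq_div_iff (by positivity) (by positivity), ← h3]
  ring

theorem ex_ZZ (I i j : ℕ) (hi : i < I) (hj : j < i) :
    ex I (fun n => (Zb i n : ℝ) * Zb j n) =
      ∑ q ∈ PB i, ∑ p ∈ PB j, (cBB p q : ℝ) / 2 ^ (q - 1) := by
  unfold ex
  simp_rw [Zb_eq, Finset.sum_mul_sum]
  rw [Finset.sum_comm, Finset.sum_div]
  apply Finset.sum_congr rfl
  intro q hq
  rw [Finset.sum_comm, Finset.sum_div]
  apply Finset.sum_congr rfl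
  intro p hp
  have hq' := PB_mem hq
  have hp' := PB_mem hp
  have hle : 2 ^ (i + 1) ≤ 2 ^ I := Nat.pow_le_pow_right (by norm_num) hi
  have hle2 : 2 ^ (j + 1) ≤ 2 ^ i := Nat.pow_le_pow_right (by norm_num) hj
  unfold Om
  rw [sum_gg p q (2 ^ I) (by omega) (by omega) (by omega)]
  have h3 : (2 : ℝ) ^ (2 ^ I - q) * 2 ^ (q - 1) = 2 ^ (2 ^ I - 1) := by
    rw [← pow_add]; congr 1; omega
  rw [div_eq_div_iff (by positivity) (by positivity), ← h3]
  ring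

theorem cv_far (q₀ : ℕ) (hC : ∀ q : ℕ, q₀ ≤ q → ∀ p : ℕ, 1 ≤ p →
    (p : ℝ) * (Real.log q) ^ 6 ≤ q →
    |(cBB p q : ℝ) / 2 ^ (q - 1) - ((cB p : ℝ) / 2 ^ (p - 1)) * ((cB q : ℝ) / 2 ^ (q - 1))| ≤
      1 / (q : ℝ) ^ 3) (I i j K : ℕ) (hi : i < I) (hK : (I : ℝ) ^ 6 ≤ 2 ^ (K - 1)) (hK1 : 1 ≤ K)
    (hj : j + K ≤ i) (hq₀ : q₀ ≤ 2 ^ i) : cv I i j ≤ (1 / 2) ^ i := by
  have hji : j < i := by omega
  unfold cv
  rw [ex_ZZ I i j hi hji, ex_Zb I i hi, ex_Zb I j (by omega), Finset.sum_mul_sum,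
    ← Finset.sum_sub_distrib]
  simp_rw [← Finset.sum_sub_distrib]
  have hterm : ∀ q ∈ PB i, ∀ p ∈ PB j, (cBB p q : ℝ) / 2 ^ (q - 1) -
      (cB q : ℝ) / 2 ^ (q - 1) * ((cB p : ℝ) / 2 ^ (p - 1)) ≤ 1 / ((2 : ℝ) ^ i) ^ 3 := by
    intro q hq p hp
    have hq' := PB_mem hq
    have hp' := PB_mem hp
    have hqpos : (0 : ℝ) < q := by
      have : 0 < q := by omega
      exact_mod_cast this
    have hlogq : Real.log q ≤ I := by
      have h1 : (q : ℝ) ≤ (2 : ℝ) ^ (i + 1) := by exact_mod_cast hq'.2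
      have h2 : Real.log q ≤ Real.log ((2 : ℝ) ^ (i + 1)) := Real.log_le_log hqpos h1
      rw [Real.log_pow] at h2
      have h3 : Real.log 2 ≤ 1 := by
        have := Real.log_two_lt_d9; linarith
      have h4 : ((i + 1 : ℕ) : ℝ) ≤ I := by exact_mod_cast hi
      have h5 : (0 : ℝ) ≤ ((i + 1 : ℕ) : ℝ) := Nat.cast_nonneg _
      nlinarith
    have hlog0 : 0 ≤ Real.log q := Real.log_nonneg (by
      have : 1 ≤ q := by omega
      exact_mod_cast this)
    have hcond : (p : ℝ) * (Real.log q) ^ 6 ≤ q := by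
      have h1 : (p : ℝ) ≤ (2 : ℝ) ^ (j + 1) := by exact_mod_cast hp'.2
      have h2 : (Real.log q) ^ 6 ≤ 2 ^ (K - 1) :=
        (pow_le_pow_left₀ hlog0 hlogq 6).trans hK
      have h3 : (p : ℝ) * (Real.log q) ^ 6 ≤ 2 ^ (j + 1) * 2 ^ (K - 1) :=
        mul_le_mul h1 h2 (by positivity) (by positivity)
      have h4 : (2 : ℝ) ^ (j + 1) * 2 ^ (K - 1) = 2 ^ (j + K) := by
        rw [← pow_add]; congr 1; omega
      have h5 : (2 : ℝ) ^ (j + K) ≤ 2 ^ i := pow_le_pow_right₀ (by norm_num) hj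
      have h6 : (2 : ℝ) ^ i ≤ q := by exact_mod_cast hq'.1.le
      linarith
    have h := hC q (by omega) p (by omega) hcond
    have h7 : 1 / (q : ℝ) ^ 3 ≤ 1 / ((2 : ℝ) ^ i) ^ 3 := by
      apply one_div_le_one_div_of_le (by positivity)
      apply pow_le_pow_left₀ (by positivity)
      exact_mod_cast hq'.1.le
    have h8 := le_abs_self ((cBB p q : ℝ) / 2 ^ (q - 1) -
      ((cB p : ℝ) / 2 ^ (p - 1)) * ((cB q : ℝ) / 2 ^ (q - 1)))
    have h9 : ((cB p : ℝ) / 2 ^ (p - 1)) * ((cB q : ℝ) / 2 ^ (q - 1)) =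
      (cB q : ℝ) / 2 ^ (q - 1) * ((cB p : ℝ) / 2 ^ (p - 1)) := mul_comm _ _
    rw [h9] at h8 h
    linarith
  have hsum : ∑ q ∈ PB i, ∑ p ∈ PB j, ((cBB p q : ℝ) / 2 ^ (q - 1) -
      (cB q : ℝ) / 2 ^ (q - 1) * ((cB p : ℝ) / 2 ^ (p - 1))) ≤
      ∑ q ∈ PB i, ∑ p ∈ PB j, 1 / ((2 : ℝ) ^ i) ^ 3 :=
    Finset.sum_le_sum fun q hq => Finset.sum_le_sum fun p hp => hterm q hq p hp
  refine hsum.trans ?_
  rw [Finset.sum_const, Finset.sum_const, nsmul_eq_mul, nsmul_eq_mul]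
  have c1 : ((PB i).card : ℝ) ≤ 2 ^ i := by exact_mod_cast PB_card i
  have c2 : ((PB j).card : ℝ) ≤ 2 ^ i := by
    have : (PB j).card ≤ 2 ^ i :=
      (PB_card j).trans (Nat.pow_le_pow_right (by norm_num) hji.le)
    exact_mod_cast this
  have hp2 : (0 : ℝ) < 2 ^ i := by positivity
  calc ((PB i).card : ℝ) * (((PB j).card : ℝ) * (1 / ((2 : ℝ) ^ i) ^ 3))
      ≤ 2 ^ i * (2 ^ i * (1 / ((2 : ℝ) ^ i) ^ 3)) := by
        apply mul_le_mul c1 _ (by positivity) (by positivity)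
        exact mul_le_mul_of_nonneg_right c2 (by positivity)
    _ = (1 / 2) ^ i := by
        rw [one_div_pow]
        field_simp

theorem geom_le (I : ℕ) : ∑ j ∈ range I, ((1 : ℝ) / 2) ^ j ≤ 2 := by
  rw [geom_sum_eq (by norm_num)]
  have : (0 : ℝ) ≤ (1 / 2) ^ I := by positivity
  rw [div_le_iff_of_neg (by norm_num)]
  linarith

theorem near_card (I K i : ℕ) :
    ∑ j ∈ range I, (if i < j + K ∧ j < i + K then (1 : ℝ) else 0) ≤ 2 * K := by
  rw [← Finset.sum_filter, Finset.sum_const, nsmul_eq_mul, mul_one]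
  have h : ((range I).filter (fun j => i < j + K ∧ j < i + K)).card ≤
      (Ico (i + 1 - K) (i + K)).card := by
    apply Finset.card_le_card
    intro j hj
    rw [Finset.mem_filter] at hj
    rw [Finset.mem_Ico]
    omega
  rw [Nat.card_Ico] at h
  have h2 : ((range I).filter (fun j => i < j + K ∧ j < i + K)).card ≤ 2 * K := by omega
  exact_mod_cast h2

theorem taskVar : TaskVar := by
  intro hSM hCov
  obtain ⟨C, hC, hSM⟩ := hSM
  obtain ⟨q₀, hq₀⟩ := hCov 3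
  have hmain : ∀ I : ℕ, 2 ≤ I → ∑ i ∈ range I, ∑ j ∈ range I, cv I i j ≤
      2 * C * (2 * ((6 * Nat.clog 2 I + 1 : ℕ) : ℝ)) * I + 2 * I + 2 * C * q₀ * I := by
    intro I hI
    set K : ℕ := 6 * Nat.clog 2 I + 1 with hKdef
    have hK : (I : ℝ) ^ 6 ≤ 2 ^ (K - 1) := by
      have h1 : I ≤ 2 ^ Nat.clog 2 I := Nat.le_pow_clog (by norm_num) I
      have h2 : K - 1 = Nat.clog 2 I * 6 := by omega
      rw [h2, pow_mul]
      apply pow_le_pow_left₀ (Nat.cast_nonneg _)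
      exact_mod_cast h1
    have hfar : ∀ i j : ℕ, i < I → j + K ≤ i → cv I i j ≤
        (1 / 2) ^ i + 2 * C * (if i < q₀ then 1 else 0) := by
      intro i j hi hj
      by_cases h : i < q₀
      · rw [if_pos h]
        have := cv_le C hSM I i j hi (by omega)
        have h2 : (0 : ℝ) ≤ (1 / 2) ^ i := by positivity
        linarith
      · rw [if_neg h]
        have h1 : q₀ ≤ 2 ^ i := by
          have := Nat.lt_two_pow_self (n := i)
          omega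
        have := cv_far q₀ (fun q hq p hp hpq => hq₀ q hq p hp hpq) I i j K hi hK (by omega) hj h1
        linarith
    have hpt : ∀ i ∈ range I, ∀ j ∈ range I, cv I i j ≤
        2 * C * (if i < j + K ∧ j < i + K then (1 : ℝ) else 0) + (1 / 2) ^ (max i j) +
          2 * C * (if max i j < q₀ then 1 else 0) := by
      intro i hi j hj
      rw [Finset.mem_range] at hi hj
      have p1 : (0 : ℝ) ≤ (1 / 2) ^ (max i j) := by positivity
      have p2 : (0 : ℝ) ≤ 2 * C * (if max i j < q₀ then 1 else 0) := by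
        split_ifs <;> linarith
      have p3 : (0 : ℝ) ≤ 2 * C * (if i < j + K ∧ j < i + K then (1 : ℝ) else 0) := by
        split_ifs <;> linarith
      by_cases h1 : j + K ≤ i
      · have := hfar i j hi h1
        rw [max_eq_left (by omega : j ≤ i)] at p1 p2 ⊢
        linarith
      · by_cases h2 : i + K ≤ j
        · have := hfar j i hj h2
          rw [cv_comm]
          rw [max_eq_right (by omega : i ≤ j)] at p1 p2 ⊢
          linarith
        · rw [if_pos (by omega : i < j + K ∧ j < i + K)]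
          have := cv_le C hSM I i j hi hj
          linarith
    have hrow : ∀ i ∈ range I, ∑ j ∈ range I, cv I i j ≤
        2 * C * (2 * (K : ℝ)) + 2 + 2 * C * q₀ := by
      intro i hi
      refine (Finset.sum_le_sum (hpt i hi)).trans ?_
      rw [Finset.sum_add_distrib, Finset.sum_add_distrib, ← Finset.mul_sum, ← Finset.mul_sum]
      have a1 := mul_le_mul_of_nonneg_left (near_card I K i) (by linarith : (0 : ℝ) ≤ 2 * C)
      have a2 : ∑ j ∈ range I, ((1 : ℝ) / 2) ^ (max i j) ≤ 2 := by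
        refine le_trans (Finset.sum_le_sum fun j _ => ?_) (geom_le I)
        exact pow_le_pow_of_le_one (by norm_num) (by norm_num) (le_max_right i j)
      have a3 : ∑ j ∈ range I, (if max i j < q₀ then (1 : ℝ) else 0) ≤ q₀ := by
        rw [← Finset.sum_filter, Finset.sum_const, nsmul_eq_mul, mul_one]
        have : ((range I).filter (fun j => max i j < q₀)).card ≤ (range q₀).card := by
          apply Finset.card_le_card
          intro j hj
          rw [Finset.mem_filter] at hj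
          rw [Finset.mem_range]
          exact (le_max_right i j).trans_lt hj.2
        rw [Finset.card_range] at this
        exact_mod_cast this
      have a4 := mul_le_mul_of_nonneg_left a3 (by linarith : (0 : ℝ) ≤ 2 * C)
      linarith
    refine (Finset.sum_le_sum hrow).trans ?_
    rw [Finset.sum_const, Finset.card_range, nsmul_eq_mul]
    apply le_of_eq
    ring
  refine ⟨2 * C * (2 * 26) + 4 + 4 * C * q₀, by positivity, ?_⟩
  intro I hI
  have h1 := var_eq I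
  have h2 := hmain I hI
  have hIr : (2 : ℝ) ≤ I := by exact_mod_cast hI
  have hlog : (1 / 2 : ℝ) ≤ Real.log I := by
    have h3 : Real.log 2 ≤ Real.log I := Real.log_le_log (by norm_num) hIr
    have := Real.log_two_gt_d9
    linarith
  have hcl : ((6 * Nat.clog 2 I + 1 : ℕ) : ℝ) ≤ 26 * Real.log I := by
    have h3 : 2 ^ (Nat.clog 2 I - 1) < I := by
      apply Nat.pow_pred_clog_lt_self (by norm_num) (by omega)
    have h4 : ((Nat.clog 2 I - 1 : ℕ) : ℝ) * Real.log 2 ≤ Real.log I := by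
      have h5 : (2 : ℝ) ^ (Nat.clog 2 I - 1) ≤ I := by exact_mod_cast h3.le
      have h6 := Real.log_le_log (by positivity) h5
      rwa [Real.log_pow] at h6
    have h7 : 1 ≤ Nat.clog 2 I := Nat.clog_pos (by norm_num) hI
    rw [Nat.cast_sub h7] at h4
    have h8 := Real.log_two_gt_d9
    push_cast at h4 ⊢
    nlinarith
  have hO : ∑ n ∈ (range (2 ^ (2 ^ I))).filter (fun n => Odd n), ((Sb I n : ℝ) - aS I) ^ 2 =
      ∑ n ∈ Om I, ((Sb I n : ℝ) - aS I) ^ 2 := rfl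
  rw [hO, h1]
  have hq0 : (0 : ℝ) ≤ q₀ := Nat.cast_nonneg _
  have h9 : 2 * C * (2 * ((6 * Nat.clog 2 I + 1 : ℕ) : ℝ)) * I + 2 * I + 2 * C * q₀ * I ≤
      (2 * C * (2 * 26) + 4 + 4 * C * q₀) * (I * Real.log I) := by
    have b1 : 2 * C * (2 * ((6 * Nat.clog 2 I + 1 : ℕ) : ℝ)) * I ≤
        2 * C * (2 * (26 * Real.log I)) * I := by
      gcongr
    have b2 : (2 : ℝ) * I ≤ 4 * (I * Real.log I) := by nlinarith
    have b3 : 2 * C * q₀ * I ≤ 4 * C * q₀ * (I * Real.log I) := by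
      have : 0 ≤ C * q₀ := by positivity
      have h10 : (I : ℝ) ≤ 2 * (I * Real.log I) := by nlinarith
      have := mul_le_mul_of_nonneg_left h10 this
      linarith
    linarith
  have h11 : (2 : ℝ) ^ (2 ^ I - 1) ≤ 2 ^ (2 ^ I) :=
    pow_le_pow_right₀ (by norm_num) (Nat.sub_le _ _)
  have h12 : 0 ≤ (2 * C * (2 * 26) + 4 + 4 * C * q₀) * (I * Real.log I) := by positivity
  calc (2 : ℝ) ^ (2 ^ I - 1) * ∑ i ∈ range I, ∑ j ∈ range I, cv I i j
      ≤ 2 ^ (2 ^ I - 1) * ((2 * C * (2 * 26) + 4 + 4 * C * q₀) * (I * Real.log I)) :=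
        mul_le_mul_of_nonneg_left (h2.trans h9) (by positivity)
    _ ≤ 2 ^ (2 ^ I) * ((2 * C * (2 * 26) + 4 + 4 * C * q₀) * (I * Real.log I)) :=
        mul_le_mul_of_nonneg_right h11 h12
    _ = (2 * C * (2 * 26) + 4 + 4 * C * q₀) * (I * Real.log I) * 2 ^ (2 ^ I) := by ring

end Pool.Agent.H555R4.DY.Var403
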